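import Pool.Agent.Work.MP_b5407d_pos_helper13.Blocks
import Pool.Agent.Work.MP_b5407d_lbm_helper35.PathBasics

/-! # MP_b5407d_gt, block LIP: the functionals are Lipschitz in the vertices (helper83) -/

set_option autoImplicit false

open MeasureTheory Set Filter Topology

namespace Pool.Agent.Work.MP_b5407d_pos_h13

open Pool.LBM Pool.LBM.Path

namespace LIPAux

/-- box -/
def Bx (m : ℕ) (B : ℝ) (a b : ℕ → ℝ) : Prop := ∀ k ≤ m, |a k| ≤ B ∧ |b k| ≤ B

theorem dst_nonneg (m : ℕ) (a b a' b' : ℕ → ℝ) : 0 ≤ dst m a b a' b' :=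
  Finset.sum_nonneg fun _ _ => add_nonneg (abs_nonneg _) (abs_nonneg _)

theorem le_dst {m k : ℕ} (hk : k ≤ m) (a b a' b' : ℕ → ℝ) :
    |a k - a' k| + |b k - b' k| ≤ dst m a b a' b' :=
  Finset.single_le_sum (f := fun k => |a k - a' k| + |b k - b' k|)
    (fun _ _ => add_nonneg (abs_nonneg _) (abs_nonneg _)) (Finset.mem_range.mpr (by omega))

theorem le_dsta {m k : ℕ} (hk : k ≤ m) (a b a' b' : ℕ → ℝ) :
    |a k - a' k| ≤ dst m a b a' b' := by
  have := le_dst hk a b a' b'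
  have := abs_nonneg (b k - b' k)
  linarith

theorem le_dstb {m k : ℕ} (hk : k ≤ m) (a b a' b' : ℕ → ℝ) :
    |b k - b' k| ≤ dst m a b a' b' := by
  have := le_dst hk a b a' b'
  have := abs_nonneg (a k - a' k)
  linarith

/-- good functions of the vertices and of the time -/
def Gd (m : ℕ) (B : ℝ) (F : (ℕ → ℝ) → (ℕ → ℝ) → ℝ → ℝ) : Prop :=
  (∀ a b, Measurable (F a b)) ∧ ∃ C, 0 ≤ C ∧
    (∀ a b, Bx m B a b → ∀ t : ℝ, 0 ≤ t → t < m → |F a b t| ≤ C) ∧
    (∀ a b a' b', Bx m B a b → Bx m B a' b' → ∀ t : ℝ, 0 ≤ t → t < m →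
      |F a b t - F a' b' t| ≤ C * dst m a b a' b')

/-- good functionals -/
def Gc (m : ℕ) (B : ℝ) (F : (ℕ → ℝ) → (ℕ → ℝ) → ℝ) : Prop :=
  ∃ C, 0 ≤ C ∧ (∀ a b, Bx m B a b → |F a b| ≤ C) ∧
    (∀ a b a' b', Bx m B a b → Bx m B a' b' → |F a b - F a' b'| ≤ C * dst m a b a' b')

variable {m : ℕ} {B : ℝ}

theorem Gc.gd {F : (ℕ → ℝ) → (ℕ → ℝ) → ℝ} (h : Gc m B F) : Gd m B (fun a b _ => F a b) := by
  obtain ⟨C, hC, h1, h2⟩ := h
  exact ⟨fun a b => measurable_const, C, hC, fun a b hb t _ _ => h1 a b hb,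
    fun a b a' b' hb hb' t _ _ => h2 a b a' b' hb hb'⟩

theorem Gc.neg {F : (ℕ → ℝ) → (ℕ → ℝ) → ℝ} (h : Gc m B F) : Gc m B (fun a b => -F a b) := by
  obtain ⟨C, hC, h1, h2⟩ := h
  refine ⟨C, hC, fun a b hb => ?_, fun a b a' b' hb hb' => ?_⟩
  · rw [abs_neg]; exact h1 a b hb
  · have := h2 a b a' b' hb hb'
    rw [show -F a b - -F a' b' = -(F a b - F a' b') by ring, abs_neg]; exact this

theorem Gd.add {F G : (ℕ → ℝ) → (ℕ → ℝ) → ℝ → ℝ} (hF : Gd m B F) (hG : Gd m B G) :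
    Gd m B (fun a b t => F a b t + G a b t) := by
  obtain ⟨mF, C, hC, h1, h2⟩ := hF
  obtain ⟨mG, D, hD, g1, g2⟩ := hG
  refine ⟨fun a b => (mF a b).add (mG a b), C + D, add_nonneg hC hD, fun a b hb t h0 ht => ?_,
    fun a b a' b' hb hb' t h0 ht => ?_⟩
  · exact (abs_add_le _ _).trans (add_le_add (h1 a b hb t h0 ht) (g1 a b hb t h0 ht))
  · rw [show F a b t + G a b t - (F a' b' t + G a' b' t) =
      (F a b t - F a' b' t) + (G a b t - G a' b' t) by ring, add_mul]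
    exact (abs_add_le _ _).trans (add_le_add (h2 a b a' b' hb hb' t h0 ht)
      (g2 a b a' b' hb hb' t h0 ht))

theorem Gd.mul {F G : (ℕ → ℝ) → (ℕ → ℝ) → ℝ → ℝ} (hF : Gd m B F) (hG : Gd m B G) :
    Gd m B (fun a b t => F a b t * G a b t) := by
  obtain ⟨mF, C, hC, h1, h2⟩ := hF
  obtain ⟨mG, D, hD, g1, g2⟩ := hG
  refine ⟨fun a b => (mF a b).mul (mG a b), 2 * (C * D), by positivity, fun a b hb t h0 ht => ?_,
    fun a b a' b' hb hb' t h0 ht => ?_⟩
  · have e1 := h1 a b hb t h0 ht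
    have e2 := g1 a b hb t h0 ht
    rw [abs_mul]
    have := mul_le_mul e1 e2 (abs_nonneg _) hC
    have := mul_nonneg hC hD
    linarith
  · have e1 := h1 a b hb t h0 ht
    have e2 := g1 a' b' hb' t h0 ht
    have e3 := h2 a b a' b' hb hb' t h0 ht
    have e4 := g2 a b a' b' hb hb' t h0 ht
    rw [show F a b t * G a b t - F a' b' t * G a' b' t =
      F a b t * (G a b t - G a' b' t) + (F a b t - F a' b' t) * G a' b' t by ring]
    refine (abs_add_le _ _).trans ?_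
    rw [abs_mul, abs_mul]
    have f1 := mul_le_mul e1 e4 (abs_nonneg _) hC
    have f2 := mul_le_mul e3 e2 (abs_nonneg _) (mul_nonneg hC (dst_nonneg m a b a' b'))
    linarith

theorem Gd.fix {χ : ℝ → ℝ} (hm : Measurable χ) {C : ℝ} (hC : 0 ≤ C) (h : ∀ t, |χ t| ≤ C) :
    Gd m B (fun _ _ t => χ t) := by
  refine ⟨fun _ _ => hm, C, hC, fun a b _ t _ _ => h t, fun a b a' b' _ _ t _ _ => ?_⟩
  simp only [sub_self, abs_zero]
  exact mul_nonneg hC (dst_nonneg m a b a' b')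

theorem Gd.comp {F : (ℕ → ℝ) → (ℕ → ℝ) → ℝ → ℝ} (hF : Gd m B F) {φ φ' : ℝ → ℝ}
    (hd : ∀ x, HasDerivAt φ (φ' x) x) (hc : Continuous φ') :
    Gd m B (fun a b t => φ (F a b t)) := by
  obtain ⟨mF, C, hC, h1, h2⟩ := hF
  have hφc : Continuous φ := continuous_iff_continuousAt.2 fun x => (hd x).continuousAt
  obtain ⟨K1, hK1⟩ := (isCompact_Icc (a := -C) (b := C)).exists_bound_of_continuousOn
    hφc.continuousOn
  obtain ⟨K2, hK2⟩ := (isCompact_Icc (a := -C) (b := C)).exists_bound_of_continuousOn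
    hc.continuousOn
  have h0 : (0 : ℝ) ∈ Icc (-C) C := ⟨by linarith, hC⟩
  have hK1' : 0 ≤ K1 := (norm_nonneg _).trans (hK1 0 h0)
  have hK2' : 0 ≤ K2 := (norm_nonneg _).trans (hK2 0 h0)
  have hlip : ∀ x y, |x| ≤ C → |y| ≤ C → |φ x - φ y| ≤ K2 * |x - y| := by
    intro x y hx hy
    rw [abs_le] at hx hy
    have := (convex_Icc (-C) C).norm_image_sub_le_of_norm_hasDerivWithin_le
      (f := φ) (f' := φ') (C := K2) (fun z _ => (hd z).hasDerivWithinAt) (fun z hz => hK2 z hz)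
      (x := y) (y := x) ⟨hy.1, hy.2⟩ ⟨hx.1, hx.2⟩
    simpa [Real.norm_eq_abs] using this
  refine ⟨fun a b => hφc.measurable.comp (mF a b), K1 + K2 * C, by positivity,
    fun a b hb t h0 ht => ?_, fun a b a' b' hb hb' t h0 ht => ?_⟩
  · have e1 := h1 a b hb t h0 ht
    have e2 := abs_le.1 e1
    have e3 := hK1 (F a b t) ⟨e2.1, e2.2⟩
    rw [Real.norm_eq_abs] at e3
    have : 0 ≤ K2 * C := mul_nonneg hK2' hC
    linarith
  · have e1 := hlip _ _ (h1 a b hb t h0 ht) (h1 a' b' hb' t h0 ht)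
    have e2 := h2 a b a' b' hb hb' t h0 ht
    have e3 := mul_le_mul_of_nonneg_left e2 hK2'
    have e4 : 0 ≤ K1 * dst m a b a' b' := mul_nonneg hK1' (dst_nonneg m a b a' b')
    have e5 : (K1 + K2 * C) * dst m a b a' b' =
      K1 * dst m a b a' b' + K2 * (C * dst m a b a' b') := by ring
    rw [e5]
    linarith

theorem floor_lt' {t : ℝ} (h0 : 0 ≤ t) (ht : t < m) : ⌊t⌋₊ < m := (Nat.floor_lt h0).2 ht

theorem Gd.pla (hB : 0 ≤ B) : Gd m B (fun a _ t => pl a t) := by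
  refine ⟨fun a b => (cont_pl a).measurable, 3 * B + 3, by positivity, fun a b hb t h0 ht => ?_,
    fun a b a' b' hb hb' t h0 ht => ?_⟩
  · have hk := floor_lt' h0 ht
    have e1 := abs_le.1 (hb ⌊t⌋₊ hk.le).1
    have e2 := abs_le.1 (hb (⌊t⌋₊ + 1) hk).1
    have f1 := Nat.floor_le h0
    have f2 := Nat.lt_floor_add_one t
    have s0 : 0 ≤ t - (⌊t⌋₊ : ℝ) := by linarith
    have s1 : t - (⌊t⌋₊ : ℝ) ≤ 1 := by linarith
    show |pl a t| ≤ 3 * B + 3
    unfold pl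
    generalize t - (⌊t⌋₊ : ℝ) = s at *
    generalize a ⌊t⌋₊ = x at *
    generalize a (⌊t⌋₊ + 1) = y at *
    rw [abs_le]
    constructor
    · nlinarith [mul_nonneg s0 (sub_nonneg.2 e2.1), mul_nonneg s0 (sub_nonneg.2 e1.2)]
    · nlinarith [mul_nonneg s0 (sub_nonneg.2 e2.2), mul_nonneg s0 (sub_nonneg.2 e1.1)]
  · have hk := floor_lt' h0 ht
    have e1 := abs_le.1 (le_dsta hk.le a b a' b')
    have e2 := abs_le.1 (le_dsta (show ⌊t⌋₊ + 1 ≤ m from hk) a b a' b')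
    have f1 := Nat.floor_le h0
    have f2 := Nat.lt_floor_add_one t
    have hD := dst_nonneg m a b a' b'
    unfold pl
    generalize dst m a b a' b' = D at *
    have e : a ⌊t⌋₊ + (t - ⌊t⌋₊) * (a (⌊t⌋₊ + 1) - a ⌊t⌋₊) -
      (a' ⌊t⌋₊ + (t - ⌊t⌋₊) * (a' (⌊t⌋₊ + 1) - a' ⌊t⌋₊)) =
      (1 - (t - ⌊t⌋₊)) * (a ⌊t⌋₊ - a' ⌊t⌋₊) +
        (t - ⌊t⌋₊) * (a (⌊t⌋₊ + 1) - a' (⌊t⌋₊ + 1)) := by ring
    rw [e]
    generalize (a ⌊t⌋₊ - a' ⌊t⌋₊) = x at *
    generalize (a (⌊t⌋₊ + 1) - a' (⌊t⌋₊ + 1)) = y at *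
    generalize hs : t - (⌊t⌋₊ : ℝ) = s at *
    have s0 : 0 ≤ s := by linarith
    have s1 : s ≤ 1 := by linarith
    have hBD : 0 ≤ B * D := mul_nonneg hB hD
    rw [abs_le]
    constructor
    · nlinarith [mul_nonneg s0 (sub_nonneg.2 e2.1), mul_nonneg (sub_nonneg.2 s1) (sub_nonneg.2 e1.1)]
    · nlinarith [mul_nonneg s0 (sub_nonneg.2 e2.2), mul_nonneg (sub_nonneg.2 s1) (sub_nonneg.2 e1.2)]

theorem Gd.dpla (hB : 0 ≤ B) : Gd m B (fun a _ t => dpl a t) := by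
  refine ⟨fun a b => dpl_meas a, 2 * B + 2, by positivity, fun a b hb t h0 ht => ?_,
    fun a b a' b' hb hb' t h0 ht => ?_⟩
  · have hk := floor_lt' h0 ht
    have e1 := abs_le.1 (hb ⌊t⌋₊ hk.le).1
    have e2 := abs_le.1 (hb (⌊t⌋₊ + 1) hk).1
    unfold dpl
    rw [abs_le]
    constructor <;> linarith
  · have hk := floor_lt' h0 ht
    have e1 := abs_le.1 (le_dsta hk.le a b a' b')
    have e2 := abs_le.1 (le_dsta (show ⌊t⌋₊ + 1 ≤ m from hk) a b a' b')
    have hD := dst_nonneg m a b a' b'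
    have hBD : 0 ≤ B * dst m a b a' b' := mul_nonneg hB hD
    unfold dpl
    rw [abs_le]
    constructor <;> nlinarith

theorem Gd.swap {F : (ℕ → ℝ) → (ℕ → ℝ) → ℝ → ℝ} (hF : Gd m B F) :
    Gd m B (fun a b t => F b a t) := by
  obtain ⟨mF, C, hC, h1, h2⟩ := hF
  have hs : ∀ a b, Bx m B a b → Bx m B b a := fun a b h k hk => ⟨(h k hk).2, (h k hk).1⟩
  refine ⟨fun a b => mF b a, C, hC, fun a b hb t h0 ht => h1 b a (hs a b hb) t h0 ht,
    fun a b a' b' hb hb' t h0 ht => ?_⟩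
  have := h2 b a b' a' (hs a b hb) (hs a' b' hb') t h0 ht
  have e : dst m b a b' a' = dst m a b a' b' := by
    unfold dst
    exact Finset.sum_congr rfl fun k _ => add_comm _ _
  rw [e] at this
  exact this

theorem Gd.plb (hB : 0 ≤ B) : Gd m B (fun _ b t => pl b t) := (Gd.pla hB).swap

theorem Gd.dplb (hB : 0 ≤ B) : Gd m B (fun _ b t => dpl b t) := (Gd.dpla hB).swap

theorem Gd.cst (c : ℝ) : Gd m B (fun _ _ _ => c) := Gd.fix measurable_const (abs_nonneg c)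
  (fun _ => le_rfl)

/-- primitives -/
theorem Gd.prim {F : (ℕ → ℝ) → (ℕ → ℝ) → ℝ → ℝ} (hF : Gd m B F) :
    ∃ C, 0 ≤ C ∧ (∀ a b, Bx m B a b → ∀ t : ℝ, 0 ≤ t → t ≤ m → |∫ s in (0 : ℝ)..t, F a b s| ≤ C) ∧
    (∀ a b a' b', Bx m B a b → Bx m B a' b' → ∀ t : ℝ, 0 ≤ t → t ≤ m →
      |(∫ s in (0 : ℝ)..t, F a b s) - ∫ s in (0 : ℝ)..t, F a' b' s| ≤ C * dst m a b a' b') := by
  obtain ⟨mF, C, hC, h1, h2⟩ := hF
  have hae : ∀ᵐ s : ℝ, s ≠ m := by
    have := (Set.countable_singleton (m : ℝ)).ae_notMem volume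
    filter_upwards [this] with s hs
    simpa using hs
  have hii : ∀ a b, Bx m B a b → ∀ t : ℝ, 0 ≤ t → t ≤ m →
      IntervalIntegrable (F a b) volume 0 t := by
    intro a b hb t h0 ht
    refine (intervalIntegrable_const (c := C)).mono_fun' (mF a b).aestronglyMeasurable ?_
    refine (ae_restrict_iff' measurableSet_uIoc).mpr ?_
    filter_upwards [hae] with s hs hs2
    rw [uIoc_of_le h0] at hs2
    rw [Real.norm_eq_abs]
    exact h1 a b hb s hs2.1.le (lt_of_le_of_ne (hs2.2.trans ht) hs)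
  refine ⟨C * m, by positivity, fun a b hb t h0 ht => ?_, fun a b a' b' hb hb' t h0 ht => ?_⟩
  · have h3 : ‖∫ s in (0 : ℝ)..t, F a b s‖ ≤ C * |t - 0| := by
      refine intervalIntegral.norm_integral_le_of_norm_le_const_ae ?_
      filter_upwards [hae] with s hs hs2
      rw [uIoc_of_le h0] at hs2
      rw [Real.norm_eq_abs]
      exact h1 a b hb s hs2.1.le (lt_of_le_of_ne (hs2.2.trans ht) hs)
    rw [Real.norm_eq_abs, sub_zero, abs_of_nonneg h0] at h3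
    exact h3.trans (mul_le_mul_of_nonneg_left ht hC)
  · rw [← intervalIntegral.integral_sub (hii a b hb t h0 ht) (hii a' b' hb' t h0 ht)]
    have h3 : ‖∫ s in (0 : ℝ)..t, (F a b s - F a' b' s)‖ ≤ (C * dst m a b a' b') * |t - 0| := by
      refine intervalIntegral.norm_integral_le_of_norm_le_const_ae ?_
      filter_upwards [hae] with s hs hs2
      rw [uIoc_of_le h0] at hs2
      rw [Real.norm_eq_abs]
      exact h2 a b a' b' hb hb' s hs2.1.le (lt_of_le_of_ne (hs2.2.trans ht) hs)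
    rw [Real.norm_eq_abs, sub_zero, abs_of_nonneg h0] at h3
    refine h3.trans ?_
    have := mul_le_mul_of_nonneg_left ht (mul_nonneg hC (dst_nonneg m a b a' b'))
    refine this.trans (le_of_eq ?_)
    ring

theorem Gd.int {F : (ℕ → ℝ) → (ℕ → ℝ) → ℝ → ℝ} (hF : Gd m B F) :
    Gc m B (fun a b => ∫ s in (0 : ℝ)..m, F a b s) := by
  obtain ⟨C, hC, h1, h2⟩ := hF.prim
  exact ⟨C, hC, fun a b hb => h1 a b hb m (Nat.cast_nonneg m) le_rfl,
    fun a b a' b' hb hb' => h2 a b a' b' hb hb' m (Nat.cast_nonneg m) le_rfl⟩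

theorem Gd.pri {F : (ℕ → ℝ) → (ℕ → ℝ) → ℝ → ℝ} (hF : Gd m B F)
    (hc : ∀ a b, Continuous (fun t => ∫ s in (0 : ℝ)..t, F a b s)) :
    Gd m B (fun a b t => ∫ s in (0 : ℝ)..t, F a b s) := by
  obtain ⟨C, hC, h1, h2⟩ := hF.prim
  exact ⟨fun a b => (hc a b).measurable, C, hC, fun a b hb t h0 ht => h1 a b hb t h0 ht.le,
    fun a b a' b' hb hb' t h0 ht => h2 a b a' b' hb hb' t h0 ht.le⟩

variable (v w : ℝ)

theorem exp_deriv (x : ℝ) : HasDerivAt Real.exp (Real.exp x) x := Real.hasDerivAt_exp x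

theorem gd_lin (hB : 0 ≤ B) : Gd m B (fun a b t => -(v * pl a t) - w * pl b t) := by
  have h := ((Gd.cst (m := m) (B := B) (-v)).mul (Gd.pla hB)).add
    ((Gd.cst (m := m) (B := B) (-w)).mul (Gd.plb hB))
  have e : (fun (a b : ℕ → ℝ) (t : ℝ) => -v * pl a t + -w * pl b t) =
    (fun a b t => -(v * pl a t) - w * pl b t) := by
    funext a b t; ring
  rw [e] at h
  exact h

theorem gd_pe (hB : 0 ≤ B) : Gd m B (pe v w) :=
  (gd_lin v w hB).comp (φ := Real.exp) (φ' := Real.exp) exp_deriv Real.continuous_exp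

theorem gd_ipe (hB : 0 ≤ B) : Gd m B (fun a b t => (pe v w a b t)⁻¹) := by
  have h := (gd_lin (m := m) (-v) (-w) hB).comp (φ := Real.exp) (φ' := Real.exp) exp_deriv
    Real.continuous_exp
  have e : (fun (a b : ℕ → ℝ) (t : ℝ) => Real.exp (-(-v * pl a t) - -w * pl b t)) =
    (fun a b t => (pe v w a b t)⁻¹) := by
    funext a b t
    unfold pe
    rw [← Real.exp_neg]
    congr 1
    ring
  rw [e] at h
  exact h

theorem gd_mE (hB : 0 ≤ B) : Gd m B (fun a _ t => mE v (pl a t)) :=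
  (Gd.pla hB).comp (mE_deriv v) (by fun_prop)

theorem gd_pq (hB : 0 ≤ B) : Gd m B (pq v w) := by
  have h1 : Gd m B (fun a _ t => Real.exp (-(v * pl a t))) := by
    have h := ((Gd.cst (m := m) (B := B) (-v)).mul (Gd.pla hB)).comp (φ := Real.exp)
      (φ' := Real.exp) exp_deriv Real.continuous_exp
    have e : (fun (a b : ℕ → ℝ) (t : ℝ) => Real.exp (-v * pl a t)) =
      (fun a _ t => Real.exp (-(v * pl a t))) := by
      funext a b t
      congr 1
      ring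
    rw [e] at h
    exact h
  exact h1.mul (gd_mE (m := m) w hB).swap

theorem gd_pX (hB : 0 ≤ B) : Gd m B (pX v w) :=
  ((gd_pe v w hB).mul (Gd.dpla hB)).pri fun a b => pX_cont v w a b

theorem gd_pL (hB : 0 ≤ B) : Gd m B (pL v w) :=
  ((gd_pq v w hB).mul (Gd.dpla hB)).pri fun a b => pL_cont v w a b

theorem gc_pJ (hB : 0 ≤ B) : Gc m B (fun a b => pJ v w a b m) :=
  (((gd_pq v w hB).mul (Gd.dpla hB)).int).neg

theorem gd_pR (hB : 0 ≤ B) (r : ℕ) : Gd m B (fun a b t => pR v w a b m r t) := by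
  have hχ : Gd m B (fun _ _ t => if (r : ℝ) + 1 ≤ t then (1 : ℝ) else 0) := by
    refine Gd.fix (C := 1) ?_ zero_le_one ?_
    · exact Measurable.ite measurableSet_Ici measurable_const measurable_const
    · intro t
      split_ifs <;> simp
  have h := (gd_pL v w hB).add (hχ.mul (gc_pJ (m := m) v w hB).gd)
  have e : (fun (a b : ℕ → ℝ) (t : ℝ) => pL v w a b t +
      (if (r : ℝ) + 1 ≤ t then (1 : ℝ) else 0) * pJ v w a b m) =
    (fun a b t => pR v w a b m r t) := by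
    funext a b t
    unfold pR
    split_ifs <;> simp
  rw [e] at h
  exact h

theorem gc_fin (hB : 0 ≤ B) {F : (ℕ → ℝ) → (ℕ → ℝ) → ℝ → ℝ} (hF : Gd m B F) :
    Gc m B (fun a b => ∫ t in (0 : ℝ)..m, F a b t / pe v w a b t * dpl b t) := by
  have h := ((hF.mul (gd_ipe v w hB)).mul (Gd.dplb hB)).int
  exact h

end LIPAux

open LIPAux

theorem blk_LIP : Stmt_LIP := by
  intro m r v w B
  rcases lt_or_ge B 0 with hB | hB
  · refine ⟨0, le_rfl, fun a b a' b' h => ?_⟩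
    have := (h 0 (Nat.zero_le m)).1
    have := abs_nonneg (a 0)
    linarith
  have h1 : Gc m B (fun a b => pd v w a b m) := gc_fin v w hB (gd_mE v hB)
  have h2 : Gc m B (fun a b => pP v w a b m) :=
    gc_fin v w hB ((gd_pX v w hB).mul (gd_mE v hB))
  have h3 : Gc m B (fun a b => pN v w a b m r) := gc_fin v w hB (gd_pR v w hB r)
  have h4 : Gc m B (fun a b => pM v w a b m r) :=
    gc_fin v w hB ((gd_pX v w hB).mul (gd_pR v w hB r))
  obtain ⟨C1, hC1, _, g1⟩ := h1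
  obtain ⟨C2, hC2, _, g2⟩ := h2
  obtain ⟨C3, hC3, _, g3⟩ := h3
  obtain ⟨C4, hC4, _, g4⟩ := h4
  refine ⟨C1 + C2 + C3 + C4, by positivity, fun a b a' b' h => ?_⟩
  have hb : Bx m B a b := fun k hk => ⟨(h k hk).1, (h k hk).2.1⟩
  have hb' : Bx m B a' b' := fun k hk => ⟨(h k hk).2.2.1, (h k hk).2.2.2⟩
  have hD := dst_nonneg m a b a' b'
  refine ⟨(g1 a b a' b' hb hb').trans (mul_le_mul_of_nonneg_right (by linarith) hD),
    (g2 a b a' b' hb hb').trans (mul_le_mul_of_nonneg_right (by linarith) hD),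
    (g3 a b a' b' hb hb').trans (mul_le_mul_of_nonneg_right (by linarith) hD),
    (g4 a b a' b' hb hb').trans (mul_le_mul_of_nonneg_right (by linarith) hD)⟩

end Pool.Agent.Work.MP_b5407d_pos_h13
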